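import Pool.Agent.X286.Ts.Pow

namespace Pool.Agent.X286.Ts
open SimpleGraph Finset Function

abbrev K33 : SimpleGraph (Fin 3 ⊕ Fin 3) := completeBipartiteGraph (Fin 3) (Fin 3)

instance finHom {I A : Type} [Finite I] [Finite A] (E : I → I → Prop) (adj : A → A → Prop) :
    Finite (HomT E adj) := by
  unfold HomT
  infer_instance

theorem h33 : Nat.card (HomT K33.Adj adjH) ≤ 732176 := by
  classical
  let Tt := Σ p : Fin 16 × Fin 16 × Fin 16, (Fin 3 → {v : Fin 16 //
    (adjB p.1 v && (adjB p.2.1 v && adjB p.2.2 v)) = true})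
  have h1 : Nat.card (HomT K33.Adj adjH) ≤ Nat.card Tt := by
    refine Nat.card_le_card_of_injective (fun φ => (⟨(φ.1 (Sum.inl 0), φ.1 (Sum.inl 1),
      φ.1 (Sum.inl 2)), fun j => ⟨φ.1 (Sum.inr j), ?_⟩⟩ : Tt)) ?_
    · have h : ∀ i, adjB (φ.1 (Sum.inl i)) (φ.1 (Sum.inr j)) = true :=
        fun i => φ.2 _ _ (by simp [K33])
      simp [h 0, h 1, h 2]
    · intro φ ψ h
      have h0 := congrArg Sigma.fst h
      simp only [Prod.mk.injEq] at h0
      have key : ∀ (p p' : Fin 16 × Fin 16 × Fin 16)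
          (a : Fin 3 → {v : Fin 16 // (adjB p.1 v && (adjB p.2.1 v && adjB p.2.2 v)) = true})
          (b : Fin 3 → {v : Fin 16 // (adjB p'.1 v && (adjB p'.2.1 v && adjB p'.2.2 v)) = true}),
          (⟨p, a⟩ : Tt) = ⟨p', b⟩ → ∀ j, (a j).1 = (b j).1 := by
        intro p p' a b hab j
        obtain ⟨h1, h2⟩ := Sigma.mk.inj_iff.1 hab
        subst h1
        rw [eq_of_heq h2]
      have h1 := key _ _ _ _ h
      apply Subtype.ext
      funext i
      rcases i with i | j
      · fin_cases i
        · exact h0.1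
        · exact h0.2.1
        · exact h0.2.2
      · exact h1 j
  refine h1.trans (le_of_eq ?_)
  rw [Nat.card_eq_fintype_card, Fintype.card_sigma]
  have h2 : ∀ p : Fin 16 × Fin 16 × Fin 16, Fintype.card (Fin 3 → {v : Fin 16 //
      (adjB p.1 v && (adjB p.2.1 v && adjB p.2.2 v)) = true}) = (cod p.1 p.2.1 p.2.2)^3 := by
    intro p
    rw [Fintype.card_fun, Fintype.card_fin, Fintype.card_subtype, Finset.card_filter]
    rfl
  simp only [h2]
  rw [Fintype.sum_prod_type]
  simp only [Fintype.sum_prod_type]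
  exact sum33

/-- pattern of the triangle -/
def E3 : Fin 3 → Fin 3 → Prop := fun i j => i ≠ j

theorem h3 : 1456 ≤ Nat.card (HomT E3 adjH) := by
  classical
  let Tt := {p : Fin 16 × Fin 16 × Fin 16 //
    (adjB p.1 p.2.1 && (adjB p.2.1 p.2.2 && adjB p.1 p.2.2)) = true}
  have h1 : Nat.card Tt ≤ Nat.card (HomT E3 adjH) := by
    refine Nat.card_le_card_of_injective (fun p => (⟨![p.1.1, p.1.2.1, p.1.2.2], ?_⟩ :
      HomT E3 adjH)) ?_
    · have hp := p.2
      simp only [Bool.and_eq_true] at hp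
      obtain ⟨a, b, c⟩ := hp
      intro i j hij
      fin_cases i <;> fin_cases j
      · exact absurd rfl hij
      · exact a
      · exact c
      · exact adjH_symm a
      · exact absurd rfl hij
      · exact b
      · exact adjH_symm c
      · exact adjH_symm b
      · exact absurd rfl hij
    · intro p p' h
      have h' := congrArg Subtype.val h
      have e0 := congrFun h' 0
      have e1 := congrFun h' 1
      have e2 := congrFun h' 2
      apply Subtype.ext
      exact Prod.ext e0 (Prod.ext e1 e2)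
  refine le_trans (le_of_eq ?_) h1
  rw [Nat.card_eq_fintype_card, Fintype.card_subtype, Finset.card_filter, Fintype.sum_prod_type]
  simp only [Fintype.sum_prod_type]
  exact sum3.symm

/-- the graph: tensor power without loops -/
def GG (m : ℕ) : SimpleGraph (Fin m → Fin 16) where
  Adj x y := x ≠ y ∧ powAdj m adjH x y
  symm := ⟨fun _ _ h => ⟨h.1.symm, fun l => adjH_symm (h.2 l)⟩⟩
  loopless := ⟨fun _ h => h.1 rfl⟩

theorem lcc {V W : Type} [Fintype V] [Fintype W] (G : SimpleGraph V) (H : SimpleGraph W) :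
    G.labelledCopyCount H = Nat.card (Copy H G) := by
  unfold labelledCopyCount
  exact Fintype.card_eq_nat_card

theorem copy_le {V W : Type} [Fintype V] [Fintype W] (G : SimpleGraph V) (H : SimpleGraph W) :
    G.copyCount H ≤ Nat.card (Copy H G) := by
  rw [← lcc]
  exact copyCount_le_labelledCopyCount

theorem numK33 (m : ℕ) : (GG m).copyCount K33 ≤ 732176^m := by
  refine (copy_le (GG m) K33).trans ?_
  have h1 : Nat.card (Copy K33 (GG m)) ≤ Nat.card (HomT K33.Adj (powAdj m adjH)) := by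
    refine Nat.card_le_card_of_injective (fun f => (⟨fun i => f i, fun i j h =>
      (f.toHom.map_adj h).2⟩ : HomT K33.Adj (powAdj m adjH))) ?_
    intro f g h
    apply Copy.ext
    intro a
    exact congrFun (congrArg Subtype.val h) a
  refine h1.trans ?_
  rw [homPow]
  exact Nat.pow_le_pow_left h33 m

theorem tri_le {V : Type} [Fintype V] (G : SimpleGraph V) :
    Nat.card (Copy (⊤ : SimpleGraph (Fin 3)) G) ≤ 27 * G.copyCount (⊤ : SimpleGraph (Fin 3)) := by
  classical
  rw [copyCount_eq_card_image_copyToSubgraph, Nat.card_eq_fintype_card, ← Finset.card_univ]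
  apply Finset.card_le_mul_card_image
  intro S hS
  obtain ⟨f0, -, rfl⟩ := Finset.mem_image.1 hS
  have h1 : (Finset.univ.filter fun f : Copy (⊤ : SimpleGraph (Fin 3)) G =>
      f.toSubgraph = f0.toSubgraph).card ≤
      (Fintype.piFinset fun _ : Fin 3 => Finset.univ.image fun i => f0 i).card := by
    refine Finset.card_le_card_of_injOn (fun f => (fun i => f i : Fin 3 → V)) ?_ ?_
    · intro f hf
      have hf' : f.toSubgraph = f0.toSubgraph := (Finset.mem_filter.1 hf).2
      simp only [Finset.mem_coe, Fintype.mem_piFinset, Finset.mem_image, Finset.mem_univ,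
        true_and]
      intro i
      have h2 := congrArg Subgraph.verts hf'
      have h3 : f i ∈ f.toSubgraph.verts := by
        simp only [Subgraph.map_verts]
        exact ⟨i, trivial, rfl⟩
      rw [h2] at h3
      simp only [Subgraph.map_verts] at h3
      obtain ⟨j, -, hj⟩ := h3
      exact ⟨j, hj⟩
    · intro f _ g _ h
      apply Copy.ext
      intro a
      exact congrFun h a
  refine h1.trans ?_
  rw [Fintype.card_piFinset_const]
  have : (Finset.univ.image fun i => f0 i).card ≤ 3 := by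
    refine Finset.card_image_le.trans ?_
    simp
  calc (Finset.univ.image fun i => f0 i).card ^ 3 ≤ 3^3 := Nat.pow_le_pow_left this 3
    _ = 27 := by norm_num

theorem idx1 : ∀ i j : Fin 3, i ≠ j → ∃ c : Fin 3, (c + 1 = i ∧ c + 2 = j) ∨
    (c + 1 = j ∧ c + 2 = i) := by decide

theorem idx2 : ∀ c i : Fin 3, i = c ∨ i = c + 1 ∨ i = c + 2 := by decide

theorem noninj {V : Type} {φ : Fin 3 → V} (h : ¬ Injective φ) :
    ∃ c : Fin 3, φ (c + 1) = φ (c + 2) := by
  simp only [Injective, not_forall] at h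
  obtain ⟨i, j, h1, h2⟩ := h
  obtain ⟨c, hc | hc⟩ := idx1 i j h2
  · exact ⟨c, by rw [hc.1, hc.2, h1]⟩
  · exact ⟨c, by rw [hc.1, hc.2, h1]⟩

theorem lab (m : ℕ) : Nat.card (HomT E3 (powAdj m adjH)) ≤
    Nat.card (Copy (⊤ : SimpleGraph (Fin 3)) (GG m)) + 3 * 256^m := by
  classical
  let Vm := Fin m → Fin 16
  have hc : ∀ φ : Fin 3 → Vm, ∃ c : Fin 3, ¬ Injective φ → φ (c + 1) = φ (c + 2) := by
    intro φ
    by_cases h : Injective φ
    · exact ⟨0, fun h' => absurd h h'⟩
    · obtain ⟨c, hc⟩ := noninj h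
      exact ⟨c, fun _ => hc⟩
  choose c hc using hc
  have h1 : Nat.card (Copy (⊤ : SimpleGraph (Fin 3)) (GG m) ⊕ (Fin 3 × (Vm × Vm))) =
      Nat.card (Copy (⊤ : SimpleGraph (Fin 3)) (GG m)) + 3 * 256^m := by
    rw [Nat.card_sum, Nat.card_prod, Nat.card_prod]
    congr 1
    simp only [Nat.card_eq_fintype_card, Vm, Fintype.card_fun, Fintype.card_fin]
    rw [← mul_pow]
    norm_num
  rw [← h1]
  let F : HomT E3 (powAdj m adjH) →
      Copy (⊤ : SimpleGraph (Fin 3)) (GG m) ⊕ (Fin 3 × (Vm × Vm)) := fun φ =>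
    if h : Injective φ.1 then
      Sum.inl ⟨⟨φ.1, fun {a b} hab => ⟨fun e => (top_adj a b).1 hab (h e),
        φ.2 a b ((top_adj a b).1 hab)⟩⟩, h⟩
    else Sum.inr (c φ.1, (φ.1 (c φ.1), φ.1 (c φ.1 + 1)))
  apply Nat.card_le_card_of_injective F
  intro φ ψ h
  apply Subtype.ext
  by_cases h1 : Injective φ.1
  · by_cases h2 : Injective ψ.1
    · simp only [F, dif_pos h1, dif_pos h2, Sum.inl.injEq] at h
      funext i
      exact congrArg (fun f : Copy (⊤ : SimpleGraph (Fin 3)) (GG m) => f i) h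
    · simp only [F, dif_pos h1, dif_neg h2] at h
      exact absurd h (by simp)
  · by_cases h2 : Injective ψ.1
    · simp only [F, dif_neg h1, dif_pos h2] at h
      exact absurd h (by simp)
    · simp only [F, dif_neg h1, dif_neg h2, Sum.inr.injEq, Prod.mk.injEq] at h
      obtain ⟨e1, e2, e3⟩ := h
      have g1 := hc φ.1 h1
      have g2 := hc ψ.1 h2
      funext i
      rw [← e1] at e2 e3 g2
      rcases idx2 (c φ.1) i with hi | hi | hi
      · rw [hi]; exact e2
      · rw [hi]; exact e3
      · rw [hi, ← g1, ← g2]; exact e3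

theorem numTri (m : ℕ) : 1456^m ≤ 27 * (GG m).copyCount (⊤ : SimpleGraph (Fin 3)) +
    3 * 256^m := by
  calc 1456^m ≤ (Nat.card (HomT E3 adjH))^m := Nat.pow_le_pow_left h3 m
    _ = Nat.card (HomT E3 (powAdj m adjH)) := (homPow _ _ _).symm
    _ ≤ _ := lab m
    _ ≤ _ := Nat.add_le_add_right (tri_le _) _

end Pool.Agent.X286.Ts
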