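import Mathlib

namespace Pool.Agent.X286.Ts
open SimpleGraph Finset

/-- homomorphisms of a pattern -/
def HomT {I A : Type} (E : I → I → Prop) (adj : A → A → Prop) : Type :=
  {φ : I → A // ∀ i j, E i j → adj (φ i) (φ j)}

/-- tensor power -/
def powAdj {A : Type} (m : ℕ) (adj : A → A → Prop) : (Fin m → A) → (Fin m → A) → Prop :=
  fun x y => ∀ l, adj (x l) (y l)

theorem homPow {I A : Type} (E : I → I → Prop) (adj : A → A → Prop) (m : ℕ) :
    Nat.card (HomT E (powAdj m adj)) = (Nat.card (HomT E adj))^m := by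
  have e : HomT E (powAdj m adj) ≃ (Fin m → HomT E adj) :=
    { toFun := fun φ l => ⟨fun i => φ.1 i l, fun i j h => φ.2 i j h l⟩
      invFun := fun ψ => ⟨fun i l => (ψ l).1 i, fun i j h l => (ψ l).2 i j h⟩
      left_inv := fun φ => rfl
      right_inv := fun ψ => rfl }
  rw [Nat.card_congr e, Nat.card_fun, Nat.card_eq_fintype_card (α := Fin m), Fintype.card_fin]

/-- the base graph on `{0,1}^4` (with loops): distance at most two -/
def adjB (x y : Fin 16) : Bool := Nat.testBit 6015 (x.val ^^^ y.val)

def adjH (x y : Fin 16) : Prop := adjB x y = true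

instance : DecidableRel adjH := fun x y => inferInstanceAs (Decidable (adjB x y = true))

theorem adjH_symm {x y : Fin 16} (h : adjH x y) : adjH y x := by
  unfold adjH adjB at *
  rwa [Nat.xor_comm]

def cod (x y z : Fin 16) : ℕ := ∑ v : Fin 16, if adjB x v && (adjB y v && adjB z v) then 1 else 0

set_option maxRecDepth 100000 in
theorem sum33 : (∑ x : Fin 16, ∑ y : Fin 16, ∑ z : Fin 16, (cod x y z)^3) = 732176 := by
  decide +kernel

set_option maxRecDepth 100000 in
theorem sum3 : (∑ x : Fin 16, ∑ y : Fin 16, ∑ z : Fin 16,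
    if adjB x y && (adjB y z && adjB x z) then 1 else 0) = 1456 := by
  decide +kernel

end Pool.Agent.X286.Ts
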